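import Pool.Agent.Q294.SlowCookies

/-!
# MP_3ce60b: the critical excited random walk need not be of order `√n log n`

In the (deterministic, hence stationary and ergodic) environment whose `i`-th cookie at every site
is `(1 + a i) / 2`, `a 1 + … + a n = 1 - 1 / √(1 + log (n + 1))`, the assumptions (SE), (POS₁),
(UEL), (MOM) and `δ = 1` hold, but `sup_{t ≤ T} |X_{[nt]}| / (√n log n) → 0` in probability.
The reason: up to time `n` a site gives a total drift of at most `1 - r n`, so that
`X_k ≤ M_k + (1 - r n) · (range)` for a martingale `M` with bounded increments, whence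
`max_{k ≤ n} |X_k| ≤ (2 max |M| + 1) / r n`.
-/

open MeasureTheory ProbabilityTheory Filter Topology
open scoped ENNReal NNReal

namespace Pool.Agent.Results.MP_3ce60b_pr.SlowCookies

open Q294.SlowCookies

/-- There is a law of cookie environments satisfying (SE), (POS₁), (UEL), (MOM) and `δ = 1` such
that under the averaged law `sup_{t ≤ T} |X_{[nt]}| / (b √n log n) → 0` in probability for all
`b, T > 0`; in particular there is no `b > 0` for which (CL) holds. -/
theorem result :
    ∃ P : Measure Env, IsProbabilityMeasure P ∧ SE P ∧ POS P ∧ UEL P ∧ MOM P ∧ delta P = 1 ∧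
      (∀ b ε : ℝ, 0 < b → 0 < ε → ∀ T : ℝ≥0,
        Tendsto (fun n : ℕ => avg P {ω | ∃ t ≤ T,
          ε ≤ |(walk ω.1 ω.2 ⌊(n : ℝ≥0) * t⌋₊ : ℝ) / (b * √n * Real.log n)|}) atTop (𝓝 0)) ∧
      ∀ (Ω' : Type) [MeasurableSpace Ω'] (Q : Measure Ω') (B : ℝ≥0 → Ω' → ℝ),
        IsBrownianReal B Q → ¬ CL P Q B :=
  ⟨PP, inferInstance, PP_SE, PP_POS, PP_UEL, PP_MOM, PP_delta,
    fun _ _ hb hε T => small_avg hb hε T, fun _ _ Q B hB => not_CL Q B hB⟩

end Pool.Agent.Results.MP_3ce60b_pr.SlowCookies
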